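import Pool.Agent.W978.QM.Stm

/-! Project QM (owner helper978), part SM3: a point of the open set. -/

set_option autoImplicit false

namespace Pool.Agent.W735.QM.SM3

open Finset Pool.Agent.W978.QM Function

section Ring
variable {R : Type*} [CommRing R] (a : (Fin 4 → Fin 2) → ℤ)

theorem bv_eq (x : Fin 2) (v : Fin 2 → R) : v x = v 0 * bv 0 x + v 1 * bv 1 x := by
  fin_cases x <;> simp [bv]

theorem qf_update (i : Fin 4) (P : Fin 4 → Fin 2 → R) (v : Fin 2 → R) :
    qf a (update P i v) =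
      ∑ e : Fin 4 → Fin 2, (a e : R) * (v (e i) * ∏ m ∈ univ.erase i, P m (e m)) := by
  unfold qf
  refine sum_congr rfl fun e _ => ?_
  congr 1
  rw [← Finset.mul_prod_erase univ _ (mem_univ i), update_self]
  congr 1
  refine prod_congr rfl fun m hm => ?_
  rw [update_of_ne (ne_of_mem_erase hm)]

theorem lin (i : Fin 4) (P : Fin 4 → Fin 2 → R) (v : Fin 2 → R) :
    qf a (update P i v) = v 0 * qf a (update P i (bv 0)) + v 1 * qf a (update P i (bv 1)) := by
  rw [qf_update, qf_update, qf_update, mul_sum, mul_sum, ← sum_add_distrib]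
  refine sum_congr rfl fun e _ => ?_
  rw [bv_eq (e i) v]
  ring

theorem qf_smul (i : Fin 4) (P : Fin 4 → Fin 2 → R) (c : R) (v : Fin 2 → R) :
    qf a (update P i (fun u => c * v u)) = c * qf a (update P i v) := by
  rw [lin, lin a i P v]; ring

/-- independence of the arguments `k`, `l` -/
theorem ma_ind {k l m : Fin 4} (hm : m = k ∨ m = l) (P : Fin 4 → Fin 2 → R) (v : Fin 2 → R)
    (x y : Fin 2) : ma a k l (update P m v) x y = ma a k l P x y := by
  unfold ma
  congr 1
  funext t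
  by_cases h1 : t = l
  · subst h1; simp
  · by_cases h2 : t = k
    · subst h2; simp [update_of_ne h1]
    · have h3 : t ≠ m := by rcases hm with rfl | rfl <;> assumption
      simp [update_of_ne h1, update_of_ne h2, update_of_ne h3]

theorem dt_ind {k l m : Fin 4} (hm : m = k ∨ m = l) (P : Fin 4 → Fin 2 → R) (v : Fin 2 → R) :
    dt a k l (update P m v) = dt a k l P := by
  unfold dt
  simp only [ma_ind a hm]

theorem disc_ind {j k l m : Fin 4} (hjk : j ≠ k) (hjl : j ≠ l) (hm : m = j ∨ m = k ∨ m = l)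
    (P : Fin 4 → Fin 2 → R) (v : Fin 2 → R) :
    disc a j k l (update P m v) = disc a j k l P := by
  have key : ∀ w : Fin 2 → R, dt a k l (update (update P m v) j w) = dt a k l (update P j w) := by
    intro w
    rcases hm with rfl | hm
    · rw [update_idem]
    · have hne : m ≠ j := by rcases hm with rfl | rfl
                             · exact hjk.symm
                             · exact hjl.symm
      rw [update_comm hne, dt_ind a hm]
  unfold disc
  simp only [key]

/-- homogeneity -/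
theorem dt_hom {k l i : Fin 4} (hk : i ≠ k) (hl : i ≠ l) (P : Fin 4 → Fin 2 → R) (c : R)
    (v : Fin 2 → R) :
    dt a k l (update P i (fun u => c * v u)) = c ^ 2 * dt a k l (update P i v) := by
  have key : ∀ x y, ma a k l (update P i (fun u => c * v u)) x y = c * ma a k l (update P i v) x y := by
    intro x y
    unfold ma
    rw [update_comm hk, update_comm hl, qf_smul, update_comm hk, update_comm hl]
  unfold dt
  simp only [key]; ring

theorem disc_hom {j k l i : Fin 4} (hj : i ≠ j) (hk : i ≠ k) (hl : i ≠ l)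
    (P : Fin 4 → Fin 2 → R) (c : R) (v : Fin 2 → R) :
    disc a j k l (update P i (fun u => c * v u)) = c ^ 4 * disc a j k l (update P i v) := by
  unfold disc
  simp only [update_comm hj]
  simp only [dt_hom a hk hl]; ring

/-- the vector orthogonal to the linear form in the argument `k` -/
def perp (k : Fin 4) (P : Fin 4 → Fin 2 → R) : Fin 2 → R := fun u =>
  bv 1 u * qf a (update P k (bv 0)) - bv 0 u * qf a (update P k (bv 1))

/-- the solution with new argument `k` -/
def sol (k : Fin 4) (P : Fin 4 → Fin 2 → R) : Fin 4 → Fin 2 → R := update P k (perp a k P)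

theorem perp0 (k : Fin 4) (P : Fin 4 → Fin 2 → R) : perp a k P 0 = - qf a (update P k (bv 1)) := by
  simp [perp, bv]

theorem perp1 (k : Fin 4) (P : Fin 4 → Fin 2 → R) : perp a k P 1 = qf a (update P k (bv 0)) := by
  simp [perp, bv]

theorem sol_zero (k : Fin 4) (P : Fin 4 → Fin 2 → R) : qf a (sol a k P) = 0 := by
  unfold sol
  rw [lin, perp0, perp1]; ring

theorem perp_sol {k t : Fin 4} (h : k ≠ t) (P : Fin 4 → Fin 2 → R) :
    perp a t (sol a k P) = fun u => (- dt a k t P) * P t u := by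
  have e1 : ∀ w, qf a (update (sol a k P) t w) =
      perp a k P 0 * qf a (update (update P k (bv 0)) t w) +
        perp a k P 1 * qf a (update (update P k (bv 1)) t w) := by
    intro w
    unfold sol
    rw [update_comm h, lin, update_comm h.symm, update_comm h.symm]
  have e2 : ∀ w, qf a (update P k w) =
      P t 0 * qf a (update (update P k w) t (bv 0)) + P t 1 * qf a (update (update P k w) t (bv 1)) := by
    intro w
    rw [← lin]
    congr 1
    have : P t = update P k w t := by rw [update_of_ne h.symm]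
    rw [this, update_eq_self]
  funext u
  have hu : u = 0 ∨ u = 1 := by fin_cases u <;> simp
  rcases hu with rfl | rfl
  · rw [perp0, e1, perp0, perp1, e2 (bv 1), e2 (bv 0)]
    unfold dt ma; ring
  · rw [perp1, e1, perp0, perp1, e2 (bv 1), e2 (bv 0)]
    unfold dt ma; ring

theorem dt_sol {k t k' l' : Fin 4} (h : k ≠ t) (hk : k = k' ∨ k = l') (h1 : t ≠ k') (h2 : t ≠ l')
    (P : Fin 4 → Fin 2 → R) :
    dt a k' l' (sol a t (sol a k P)) = (- dt a k t P) ^ 2 * dt a k' l' P := by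
  have e : sol a t (sol a k P) = update (update P t (fun u => (- dt a k t P) * P t u)) k (perp a k P) := by
    rw [sol, perp_sol a h, sol, update_comm h]
  rw [e, dt_ind a hk, dt_hom a h1 h2, update_eq_self]

theorem disc_sol {k t j' k' l' : Fin 4} (h : k ≠ t) (hjk : j' ≠ k') (hjl : j' ≠ l')
    (hk : k = j' ∨ k = k' ∨ k = l') (h0 : t ≠ j') (h1 : t ≠ k') (h2 : t ≠ l')
    (P : Fin 4 → Fin 2 → R) :
    disc a j' k' l' (sol a t (sol a k P)) = (- dt a k t P) ^ 4 * disc a j' k' l' P := by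
  have e : sol a t (sol a k P) = update (update P t (fun u => (- dt a k t P) * P t u)) k (perp a k P) := by
    rw [sol, perp_sol a h, sol, update_comm h]
  rw [e, disc_ind a hjk hjl hk, disc_hom a h0 h1 h2, update_eq_self]

end Ring

section Nat
variable {R S : Type*} [CommRing R] [CommRing S] (φ : R →+* S) (a : (Fin 4 → Fin 2) → ℤ)

/-- the image of the arguments -/
def mp (P : Fin 4 → Fin 2 → R) : Fin 4 → Fin 2 → S := fun i u => φ (P i u)

theorem mp_update (P : Fin 4 → Fin 2 → R) (k : Fin 4) (v : Fin 2 → R) :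
    mp φ (update P k v) = update (mp φ P) k (fun u => φ (v u)) := by
  funext i u
  by_cases h : i = k
  · subst h; simp [mp]
  · simp [mp, update_of_ne h]

theorem mp_bv (j : Fin 2) : (fun u => φ (bv (R := R) j u)) = bv (R := S) j := by
  funext u
  unfold bv
  by_cases h : u = j
  · subst h; simp
  · simp [Pi.single_eq_of_ne h]

theorem qf_nat (P : Fin 4 → Fin 2 → R) : qf a (mp φ P) = φ (qf a P) := by
  unfold qf mp
  rw [map_sum]
  refine sum_congr rfl fun e _ => ?_
  rw [map_mul, map_prod, map_intCast]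

theorem ma_nat (k l : Fin 4) (P : Fin 4 → Fin 2 → R) (x y : Fin 2) :
    ma a k l (mp φ P) x y = φ (ma a k l P x y) := by
  unfold ma
  rw [← qf_nat, mp_update, mp_update, mp_bv, mp_bv]

theorem dt_nat (k l : Fin 4) (P : Fin 4 → Fin 2 → R) : dt a k l (mp φ P) = φ (dt a k l P) := by
  unfold dt
  simp only [ma_nat, map_sub, map_mul]

theorem disc_nat (j k l : Fin 4) (P : Fin 4 → Fin 2 → R) :
    disc a j k l (mp φ P) = φ (disc a j k l P) := by
  have key : ∀ v : Fin 2 → R, φ (dt a k l (update P j v)) =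
      dt a k l (update (mp φ P) j (fun u => φ (v u))) := by
    intro v; rw [← dt_nat, mp_update]
  have h01 : (fun u => φ ((bv 0 + bv 1 : Fin 2 → R) u)) = (bv 0 + bv 1 : Fin 2 → S) := by
    funext u
    have h0 := congrFun (mp_bv φ 0) u
    have h1 := congrFun (mp_bv φ 1) u
    simp only [Pi.add_apply, map_add]
    rw [h0, h1]
  unfold disc
  simp only [map_sub, map_mul, map_pow, key, h01, mp_bv, map_ofNat]

theorem sol_nat (k : Fin 4) (P : Fin 4 → Fin 2 → R) : sol a k (mp φ P) = mp φ (sol a k P) := by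
  unfold sol
  rw [mp_update]
  congr 1
  funext u
  unfold perp
  have h0 := congrFun (mp_bv φ 0) u
  have h1 := congrFun (mp_bv φ 1) u
  rw [map_sub, map_mul, map_mul, h0, h1, ← qf_nat, ← qf_nat, mp_update, mp_update, mp_bv, mp_bv]

end Nat

/-- the generic point -/
noncomputable def G : Fin 4 → Fin 2 → MvPolynomial (Fin 4 × Fin 2) ℂ :=
  fun i u => MvPolynomial.X (i, u)

/-- evaluation -/
noncomputable def ev (P : Fin 4 → Fin 2 → ℂ) : MvPolynomial (Fin 4 × Fin 2) ℂ →+* ℂ :=
  MvPolynomial.eval (fun x => P x.1 x.2)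

theorem mp_G (P : Fin 4 → Fin 2 → ℂ) : mp (ev P) G = P := by
  funext i u; simp [mp, ev, G]

theorem cn {T : Type} (s : Finset T) (g : T → MvPolynomial (Fin 4 × Fin 2) ℂ)
    (h : ∀ t ∈ s, ∃ P, ev P (g t) ≠ 0) : ∃ P, ∀ t ∈ s, ev P (g t) ≠ 0 := by
  have h1 : ∏ t ∈ s, g t ≠ 0 := by
    rw [prod_ne_zero_iff]
    intro t ht h0
    obtain ⟨P, hP⟩ := h t ht
    rw [h0, map_zero] at hP
    exact hP rfl
  by_contra hcon
  push Not at hcon
  apply h1
  apply MvPolynomial.funext
  intro x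
  obtain ⟨t, ht, ht0⟩ := hcon (fun i u => x (i, u))
  rw [map_zero, map_prod]
  exact prod_eq_zero ht ht0

theorem cn2 (g1 g2 : MvPolynomial (Fin 4 × Fin 2) ℂ) (h1 : ∃ P, ev P g1 ≠ 0) (h2 : ∃ P, ev P g2 ≠ 0) :
    ∃ P, ev P g1 ≠ 0 ∧ ev P g2 ≠ 0 := by
  obtain ⟨P, hP⟩ := cn (univ : Finset Bool) (fun b => if b then g1 else g2) (by
    intro t _
    cases t
    · simpa using h2
    · simpa using h1)
  exact ⟨P, by simpa using hP true (mem_univ _), by simpa using hP false (mem_univ _)⟩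

theorem ev_dt (a : (Fin 4 → Fin 2) → ℤ) (k l : Fin 4) (P : Fin 4 → Fin 2 → ℂ) :
    ev P (dt a k l G) = dt a k l P := by rw [← dt_nat, mp_G]

theorem ev_disc (a : (Fin 4 → Fin 2) → ℤ) (j k l : Fin 4) (P : Fin 4 → Fin 2 → ℂ) :
    ev P (disc a j k l G) = disc a j k l P := by rw [← disc_nat, mp_G]

theorem ev_dt' (a : (Fin 4 → Fin 2) → ℤ) (t k l : Fin 4) (P : Fin 4 → Fin 2 → ℂ) :
    ev P (dt a k l (sol a t G)) = dt a k l (sol a t P) := by rw [← dt_nat, ← sol_nat, mp_G]

theorem ev_disc' (a : (Fin 4 → Fin 2) → ℤ) (t j k l : Fin 4) (P : Fin 4 → Fin 2 → ℂ) :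
    ev P (disc a j k l (sol a t G)) = disc a j k l (sol a t P) := by
  rw [← disc_nat, ← sol_nat, mp_G]

theorem exists_third (k l : Fin 4) (h : k ≠ l) : ∃ j, j ≠ k ∧ j ≠ l := by
  revert k l; decide

theorem exists_pair : ∀ i : Fin 4, ∃ k l : Fin 4, k ≠ l ∧ i ≠ k ∧ i ≠ l := by decide

theorem sm3 : S_SM3 := by
  intro a hyp
  have hdt : ∀ k l : Fin 4, k ≠ l → ∃ P : Fin 4 → Fin 2 → ℂ, dt a k l P ≠ 0 := by
    intro k l hkl
    obtain ⟨j, hjk, hjl⟩ := exists_third k l hkl
    obtain ⟨P, hP⟩ := hyp j k l hjk hjl hkl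
    by_contra hcon
    push Not at hcon
    apply hP
    unfold disc
    simp only [hcon]; ring
  have A : ∀ k l : Fin 4, k ≠ l → ∃ P : Fin 4 → Fin 2 → ℂ, dt a k l (sol a 3 P) ≠ 0 := by
    intro k l hkl
    by_cases h3 : (3 : Fin 4) = k ∨ (3 : Fin 4) = l
    · obtain ⟨P, hP⟩ := hdt k l hkl
      exact ⟨P, by rw [sol, dt_ind a h3]; exact hP⟩
    · push Not at h3
      obtain ⟨P, h1, h2⟩ := cn2 (dt a k l G) (dt a k 3 G)
        (by obtain ⟨P, hP⟩ := hdt k l hkl; exact ⟨P, by rw [ev_dt]; exact hP⟩)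
        (by obtain ⟨P, hP⟩ := hdt k 3 h3.1.symm; exact ⟨P, by rw [ev_dt]; exact hP⟩)
      rw [ev_dt] at h1 h2
      refine ⟨sol a k P, ?_⟩
      rw [dt_sol a h3.1.symm (Or.inl rfl) h3.1 h3.2]
      exact mul_ne_zero (pow_ne_zero _ (neg_ne_zero.2 h2)) h1
  have B : ∀ j k l : Fin 4, j ≠ k → j ≠ l → k ≠ l →
      ∃ P : Fin 4 → Fin 2 → ℂ, disc a j k l (sol a 3 P) ≠ 0 := by
    intro j k l hjk hjl hkl
    by_cases h3 : (3 : Fin 4) = j ∨ (3 : Fin 4) = k ∨ (3 : Fin 4) = l
    · obtain ⟨P, hP⟩ := hyp j k l hjk hjl hkl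
      exact ⟨P, by rw [sol, disc_ind a hjk hjl h3]; exact hP⟩
    · push Not at h3
      obtain ⟨P, h1, h2⟩ := cn2 (disc a j k l G) (dt a j 3 G)
        (by obtain ⟨P, hP⟩ := hyp j k l hjk hjl hkl; exact ⟨P, by rw [ev_disc]; exact hP⟩)
        (by obtain ⟨P, hP⟩ := hdt j 3 h3.1.symm; exact ⟨P, by rw [ev_dt]; exact hP⟩)
      rw [ev_disc] at h1
      rw [ev_dt] at h2
      refine ⟨sol a j P, ?_⟩
      rw [disc_sol a h3.1.symm hjk hjl (Or.inl rfl) h3.1 h3.2.1 h3.2.2]
      exact mul_ne_zero (pow_ne_zero _ (neg_ne_zero.2 h2)) h1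
  obtain ⟨P, hP⟩ := cn (univ : Finset ((Fin 4 × Fin 4) ⊕ (Fin 4 × Fin 4 × Fin 4)))
    (fun t => match t with
      | Sum.inl x => if x.1 ≠ x.2 then dt a x.1 x.2 (sol a 3 G) else 1
      | Sum.inr x => if x.1 ≠ x.2.1 ∧ x.1 ≠ x.2.2 ∧ x.2.1 ≠ x.2.2 then
          disc a x.1 x.2.1 x.2.2 (sol a 3 G) else 1) (by
    intro t _
    rcases t with ⟨k, l⟩ | ⟨j, k, l⟩
    · by_cases h : k ≠ l
      · obtain ⟨P, hP⟩ := A k l h
        exact ⟨P, by simp only [if_pos h]; rw [ev_dt']; exact hP⟩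
      · exact ⟨0, by simp only [if_neg h]; rw [map_one]; exact one_ne_zero⟩
    · by_cases h : j ≠ k ∧ j ≠ l ∧ k ≠ l
      · obtain ⟨P, hP⟩ := B j k l h.1 h.2.1 h.2.2
        exact ⟨P, by simp only [if_pos h]; rw [ev_disc']; exact hP⟩
      · exact ⟨0, by simp only [if_neg h]; rw [map_one]; exact one_ne_zero⟩)
  have h1 : ∀ k l : Fin 4, k ≠ l → dt a k l (sol a 3 P) ≠ 0 := by
    intro k l h
    have := hP (Sum.inl (k, l)) (mem_univ _)
    simp only [if_pos h] at this
    rwa [ev_dt'] at this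
  refine ⟨sol a 3 P, ?_, sol_zero a 3 P, h1, ?_⟩
  · intro i hi
    obtain ⟨k, l, hkl, hk, hl⟩ := exists_pair i
    have h2 := h1 k l hkl
    apply h2
    have e : sol a 3 P = update (sol a 3 P) i (fun u => (0 : ℂ) * (0 : Fin 2 → ℂ) u) := by
      funext m u
      by_cases hm : m = i
      · subst hm; simp [hi]
      · rw [update_of_ne hm]
    rw [e, dt_hom a hk hl]; simp
  · intro j k l hjk hjl hkl
    have := hP (Sum.inr (j, k, l)) (mem_univ _)
    simp only [if_pos (And.intro hjk (And.intro hjl hkl))] at this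
    rwa [ev_disc'] at this

theorem sm3' : S_BR → S_SM3 := fun _ => sm3

end Pool.Agent.W735.QM.SM3
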